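import Mathlib
import Pool.Agent.H8.Luz

set_option autoImplicit false

namespace Pool.Agent.Results.MP_10f401_gt.CH

open Set Filter Topology Function Pool.Agent.H8.SG Pool.Agent.H8.Tau
open scoped Cardinal

/-- cov(M) -/
noncomputable def covM : Cardinal.{0} :=
  sInf {κ | ∃ 𝒜 : Set (Set (ℕ → Bool)), (∀ M ∈ 𝒜, IsMeagre M) ∧ ⋃₀ 𝒜 = univ ∧ #𝒜 = κ}

/-- κ-Luzin set -/
def Luzin (κ : Cardinal.{0}) (X : Set (ℕ → Bool)) : Prop :=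
  κ ≤ #X ∧ ∀ M, IsMeagre M → #(X ∩ M : Set (ℕ → Bool)) < κ

def Menger (Z : Type) [TopologicalSpace Z] : Prop :=
  ∀ 𝒰 : ℕ → Set (Set Z), (∀ n, (∀ V ∈ 𝒰 n, IsOpen V) ∧ ⋃₀ 𝒰 n = univ) →
    ∃ F : ℕ → Set (Set Z), (∀ n, (F n).Finite ∧ F n ⊆ 𝒰 n) ∧ ∀ x, ∃ n, x ∈ ⋃₀ F n

def Rothberger (Z : Type) [TopologicalSpace Z] : Prop :=
  ∀ 𝒰 : ℕ → Set (Set Z), (∀ n, (∀ V ∈ 𝒰 n, IsOpen V) ∧ ⋃₀ 𝒰 n = univ) →
    ∃ U : ℕ → Set Z, (∀ n, U n ∈ 𝒰 n) ∧ ∀ x, ∃ n, x ∈ U n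

lemma tube {Z : Type} [TopologicalSpace Z] {k : ℕ} {F : Set Z} (hF : F.Finite)
    {U : Set (Fin k → Z)} (hU : IsOpen U) (hFU : (pi univ fun _ => F) ⊆ U) :
    ∃ V, IsOpen V ∧ F ⊆ V ∧ (pi univ fun _ => V) ⊆ U := by
  have hF' : (pi univ fun _ : Fin k => F).Finite := Finite.pi fun _ => hF
  have : ∀ p : Fin k → Z, ∃ v : Fin k → Set Z, (∀ i, IsOpen (v i) ∧ p i ∈ v i) ∧
      (p ∈ U → pi univ v ⊆ U) := by
    intro p
    by_cases hp : p ∈ U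
    · obtain ⟨v, h3, h4⟩ := isOpen_pi_iff'.1 hU p hp
      exact ⟨v, h3, fun _ => h4⟩
    · exact ⟨fun _ => univ, fun _ => ⟨isOpen_univ, trivial⟩, fun h => absurd h hp⟩
  choose v h3 h4 using this
  let N : Z → Set Z := fun x => ⋂ p ∈ (pi univ fun _ : Fin k => F), ⋂ i, {y | p i = x → y ∈ v p i}
  refine ⟨⋃ x ∈ F, N x, isOpen_biUnion fun x _ => hF'.isOpen_biInter fun p _ =>
    isOpen_iInter_of_finite fun i => ?_, fun x hx => mem_biUnion hx ?_, fun q hq => ?_⟩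
  · by_cases e : p i = x
    · simpa [e] using (h3 p i).1
    · simp [e]
  · exact mem_iInter₂.2 fun p _ => mem_iInter.2 fun i e => e ▸ (h3 p i).2
  · choose p hp1 hp2 using fun i => mem_iUnion₂.1 (hq i trivial)
    have hp : p ∈ pi univ fun _ : Fin k => F := fun i _ => hp1 i
    exact h4 p (hFU hp) fun i _ => mem_iInter.1 (mem_iInter₂.1 (hp2 i) p hp) i rfl

lemma roth {Y : Set (ℕ → Bool)} (hY : Y.Nonempty)
    (H : ∀ 𝒱 : ℕ → Set (Set (ℕ → Bool)), (∀ n, 𝒱 n ⊆ Kb) →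
      (∀ n F, F.Finite → F ⊆ Y → ∃ V ∈ 𝒱 n, F ⊆ V) →
      ∃ U : ℕ → Set (ℕ → Bool), (∀ n, U n ∈ 𝒱 n) ∧ ∀ F, F.Finite → F ⊆ Y → ∃ n, F ⊆ U n)
    (k : ℕ) : Rothberger (Fin k → Y) := by
  intro 𝒰 h
  obtain ⟨y, hy⟩ := hY
  obtain ⟨V, h1, h2⟩ := H (fun n => {V | V ∈ Kb ∧ ∃ W : ℕ → Set (Fin k → Y),
      (∀ m, W m ∈ 𝒰 (Nat.pair n m)) ∧ (pi univ fun _ => Subtype.val ⁻¹' V) ⊆ ⋃ m, W m})
    (fun _ _ h => h.1) fun n F hF hs => by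
      have hF' : (Subtype.val ⁻¹' insert y F : Set Y).Finite :=
        (hF.insert y).preimage Subtype.val_injective.injOn
      obtain ⟨e, he⟩ := (Finite.pi fun _ : Fin k => hF').countable.exists_eq_range
        ⟨fun _ => ⟨y, hy⟩, fun _ _ => mem_insert _ _⟩
      choose W w1 w2 using fun m => (((h (Nat.pair n m)).2 ▸ mem_univ (e m)) :
        e m ∈ ⋃₀ 𝒰 (Nat.pair n m))
      obtain ⟨_, ⟨O, h3, rfl⟩, h4, h5⟩ := tube hF' (isOpen_iUnion fun m => (h _).1 _ (w1 m)) (by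
        rw [he]
        rintro _ ⟨m, rfl⟩
        exact mem_iUnion.2 ⟨m, w2 m⟩)
      obtain ⟨V, h6, h7, h8⟩ := Kb_fin hF h3 fun z hz => h4 (a := ⟨z, hs hz⟩) (Or.inr hz)
      exact ⟨V, ⟨h6, W, w1, (pi_mono fun _ _ => preimage_mono h8).trans h5⟩, h7⟩
  choose W w1 w2 using fun n => (h1 n).2
  refine ⟨fun j => W j.unpair.1 j.unpair.2, fun j => by simpa using w1 j.unpair.1 j.unpair.2,
    fun p => ?_⟩
  obtain ⟨n, hn⟩ := h2 (range fun i => (p i).1) (finite_range _) (by rintro _ ⟨i, rfl⟩; exact (p i).2)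
  obtain ⟨m, hm⟩ := mem_iUnion.1 (w2 n (a := p) fun i _ => hn ⟨i, rfl⟩)
  exact ⟨Nat.pair n m, by simpa using hm⟩

theorem result (h : Cardinal.continuum.{0} = Cardinal.aleph 1) (X : Set (ℕ → Bool))
    (hX : Luzin covM X) : ∃ Y : Set (ℕ → Bool),
      (∀ k, 1 ≤ k → Rothberger (Fin k → Y) ∧ Menger (Fin k → Y)) ∧ ¬ Menger (X × Y) := by
  have m0 : #(range fun c : ℕ → Bool => ({c} : Set (ℕ → Bool))) ∈
      {κ | ∃ 𝒜 : Set (Set (ℕ → Bool)), (∀ M ∈ 𝒜, IsMeagre M) ∧ ⋃₀ 𝒜 = univ ∧ #𝒜 = κ} :=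
    ⟨_, by rintro _ ⟨c, rfl⟩; exact ct_meagre (countable_singleton c),
      eq_univ_of_forall fun c => mem_sUnion.2 ⟨{c}, mem_range_self c, rfl⟩, rfl⟩
  have c1 : covM ≤ Order.succ ℵ₀ := by
    rw [Cardinal.succ_aleph0, ← h]
    exact (csInf_le' m0).trans (Cardinal.mk_range_le.trans (card_seq _ (card_ct _)))
  have c2 : ℵ₀ < covM := by
    obtain ⟨𝒜, h1, h2, h3⟩ := csInf_mem (nonempty_of_mem m0)
    refine not_le.1 fun hc => not_isMeagre_of_isOpen isOpen_univ (univ_nonempty (α := ℕ → Bool)) ?_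
    rw [← h2, sUnion_eq_biUnion]
    exact isMeagre_biUnion (Cardinal.le_aleph0_iff_set_countable.1 (h3.trans_le hc)) h1
  obtain ⟨Y, h1, h2, h3⟩ := luz_partner (X := X) (fun M hM => Cardinal.le_aleph0_iff_set_countable.1
    (Order.lt_succ_iff.1 ((hX.2 M hM).trans_le c1))) h
    fun hc => not_le.2 c2 (hX.1.trans (Cardinal.le_aleph0_iff_set_countable.2 hc))
  have hr := roth ((h2 id).imp fun _ h => h.1) h3
  refine ⟨Y, fun k _ => ⟨hr k, fun 𝒰 hU => ?_⟩, fun H => ?_⟩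
  · obtain ⟨U, h4, h5⟩ := hr k 𝒰 hU
    exact ⟨fun n => {U n}, fun n => ⟨finite_singleton _, singleton_subset_iff.2 (h4 n)⟩,
      by simpa using h5⟩
  let u : ℕ → ℕ → Set (X × Y) := fun n k => {p | n < cnt k (p.1.1 + p.2.1)}
  obtain ⟨F, hF, hc⟩ := H (fun n => range (u n)) fun n => ⟨by
    rintro _ ⟨k, rfl⟩
    exact isOpen_lt continuous_const ((cnt_cont k).comp (by fun_prop)),
    eq_univ_of_forall fun p => by
      obtain ⟨k, hk⟩ := cnt_inf (h1 _ p.2.2 _ p.1.2) n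
      exact ⟨_, ⟨k, rfl⟩, hk⟩⟩
  choose g hg using fun n => bound (hF n).1 (P := fun V k => V ⊆ u n k)
    (fun V hV => by
      obtain ⟨k, rfl⟩ := (hF n).2 hV
      exact ⟨k, Subset.rfl⟩) fun V a b hab h p hp => lt_of_lt_of_le (h hp) (cnt_mono _ hab)
  obtain ⟨y, hy, x, hx, h5⟩ := h2 g
  obtain ⟨n, V, hV, hp⟩ := hc (⟨x, hx⟩, ⟨y, hy⟩)
  exact not_lt.2 (h5 n) (hg n V hV hp)

end Pool.Agent.Results.MP_10f401_gt.CH
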